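import Mathlib
import Pool.Agent.H18.LiouMat

namespace Pool.Agent.Results.MP_14d1e0_nt.Empty

open Finset Pool.Agent.H18.GoodVec Pool.Agent.H18.LiouMat

/-- the set `X_A` -/
def X {n : ℕ} (A : Matrix (Fin n) (Fin n) ℝ) : Set ℝ :=
  {t | IsLiouvilleMatrix (A - t • (1 : Matrix (Fin n) (Fin n) ℝ))}

theorem main (n : ℕ) (hn : 2 ≤ n) : ∃ A : Matrix (Fin n) (Fin n) ℝ, X A = ∅ := by
  obtain ⟨γ, c, hc, K, h⟩ := good (Fin n × Fin n)
  refine ⟨Matrix.of (fun i j => γ (i, j)), Set.eq_empty_of_forall_notMem (fun t ht => ?_)⟩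
  obtain ⟨N, hN, hs⟩ := no_small c 2 hc two_pos (2 * K + 1)
  obtain ⟨x, y, hy, hxy⟩ := ht.2 N (by exact_mod_cast hN)
  set Y := ‖toReal y‖ with hY
  have hb : ∀ l, |(y l : ℝ)| ≤ Y := fun l => norm_le_pi_norm (toReal y) l
  obtain ⟨i, hi⟩ : ∃ i, 1 < |(y i : ℝ)| := by
    by_contra hcon
    push Not at hcon
    have : Y ≤ 1 := (pi_norm_le_iff_of_nonneg zero_le_one).mpr hcon
    linarith
  have hi2 : (2 : ℝ) ≤ |(y i : ℝ)| := by
    have h1 : 1 < |y i| := by exact_mod_cast hi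
    have h2 : 2 ≤ |y i| := h1
    exact_mod_cast h2
  have hY2 : 2 ≤ Y := hi2.trans (hb i)
  have : Nontrivial (Fin n) := Fin.nontrivial_iff_two_le.mpr hn
  obtain ⟨j, hj⟩ := exists_ne i
  have hyi : y i ≠ 0 := by
    intro h0; rw [h0] at hi; norm_num at hi
  let k : Fin n × Fin n → ℤ := fun p =>
    (if p.1 = j then y i * y p.2 else 0) - (if p.1 = i then y j * y p.2 else 0)
  have hk : k ≠ 0 := by
    intro h0
    have := congrFun h0 (j, i)
    simp [k, hj, hyi] at this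
  have hmul : ∀ a b, |(y a : ℝ) * y b| ≤ Y ^ 2 := fun a b => by
    rw [abs_mul, sq]
    exact mul_le_mul (hb a) (hb b) (abs_nonneg _) (by linarith)
  have hkb : ∀ p, |(k p : ℝ)| ≤ Y ^ 2 := by
    rintro ⟨a, b⟩
    by_cases h1 : a = j
    · have h2 : a ≠ i := by rw [h1]; exact hj
      simp only [k, h1, if_true, hj, if_false, sub_zero]
      push_cast
      exact hmul _ _
    · by_cases h2 : a = i
      · simp only [k, h2, hj.symm, if_true, if_false, zero_sub]
        push_cast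
        rw [abs_neg]
        exact hmul _ _
      · simp only [k, h1, h2, if_false, sub_zero, Int.cast_zero, abs_zero]
        positivity
  have h1 := h k hk (y i * x j - y j * x i) (Y ^ 2) (by nlinarith) hkb
  have hsum : ∑ p, (k p : ℝ) * γ p =
      y i * ∑ l, γ (j, l) * y l - y j * ∑ l, γ (i, l) * y l := by
    simp only [k]
    push_cast
    simp only [sub_mul, Finset.sum_sub_distrib, Fintype.sum_prod_type, ite_mul, zero_mul,
      Finset.sum_ite_irrel, Finset.sum_const_zero, Finset.sum_ite_eq', Finset.mem_univ, if_true,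
      Finset.mul_sum]
    congr 1 <;> exact Finset.sum_congr rfl (fun l _ => by ring)
  have he : ∀ a, |∑ l, γ (a, l) * y l - t * y a - x a| ≤ Y ^ (-(N : ℝ)) := by
    intro a
    have h2 := (norm_le_pi_norm _ a).trans hxy.le
    rw [Matrix.sub_mulVec, Matrix.smul_mulVec, Matrix.one_mulVec] at h2
    simpa [Matrix.mulVec, dotProduct, toReal] using h2
  have h3 : ∑ p, (k p : ℝ) * γ p - ((y i * x j - y j * x i : ℤ) : ℝ) =
      y i * (∑ l, γ (j, l) * y l - t * y j - x j) -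
        y j * (∑ l, γ (i, l) * y l - t * y i - x i) := by
    rw [hsum]; push_cast; ring
  rw [h3] at h1
  have h4 := h1.trans (abs_sub _ _)
  rw [abs_mul, abs_mul] at h4
  have h5 := mul_le_mul (hb i) (he j) (abs_nonneg _) (by linarith)
  have h6 := mul_le_mul (hb j) (he i) (abs_nonneg _) (by linarith)
  have h7 := hs Y hY2
  have hY0 : 0 < Y := by linarith
  have h8 : c / (Y ^ 2) ^ K = Y * (c / Y ^ (2 * K + 1)) := by
    rw [← pow_mul]; field_simp; ring
  rw [h8] at h4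
  have h9 := mul_lt_mul_of_pos_left h7 hY0
  linarith

theorem result :
    (∀ ξ : ℝ, IsLiouvilleMatrix (Matrix.of (fun (_ _ : Fin 1) => ξ)) ↔ Liouville ξ) ∧
    ∀ n : ℕ, 2 ≤ n → ∃ A : Matrix (Fin n) (Fin n) ℝ, X A = ∅ :=
  ⟨one_one_iff, main⟩

end Pool.Agent.Results.MP_14d1e0_nt.Empty
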